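import Pool.Agent.Q252.FU6

set_option autoImplicit false

/-!
# The remainder sums `S(2^n, n)`: Funar's limit is not `1 - π²/12`

`S(n, k) = ∑_{i ≤ k} (n mod i)`.  We show that `∑_{n ≤ N} S(2^n, n) ~ N³ / 12`, that is, the mean
value of `S(2^n, n) / n²` is `1/4`.  Hence the only possible limit of `S(2^n, n) / n²` is `1/4`, and
`S(2^n, n) / n²` does not tend to `1 - π²/12 = 0.1775…`.

Proof.  For a fixed `i`, the average over `n ∈ [i, N]` of the fractional part of `2^n / i` is
`1/2 + o(1)` for almost all `i ≤ N`: almost every `i` is of the form `i = P k` with a prime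
`P > (log N)^6`, `P ∤ k`, such that the order of `2` modulo `P` has a prime factor
`q > P^(1/2 + κ)` which does not divide `φ(k)` (a Goldfeld type bound for such primes, Turán's
inequality, and a count of the `k` with `q ∣ φ(k)`).  Then the powers of `2` in a class modulo the
period of `2^n mod k` are equidistributed modulo `P`, by the sawtooth Fourier expansion and a mean
square bound for `∑_{s < S} e(a u 2^(φ(k) s) / P)`, `S = √P`.
-/

namespace Pool.Agent.Results.MP_17736e_nt.QuarterNotLimit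

open Finset Filter

/-- `S(n, k)`, the sum of the remainders of `n` modulo `1, …, k` -/
def S (n k : ℕ) : ℕ := ∑ i ∈ Icc 1 k, n % i

/-- (1) `∑_{n ≤ N} S(2^n, n) ~ N³ / 12`; (2) if `S(2^n, n) / n²` converges, then to `1/4`;
(3) `S(2^n, n) / n²` does not converge to `1 - π²/12`. -/
theorem result :
    Tendsto (fun N : ℕ => (∑ n ∈ Icc 1 N, (S (2 ^ n) n : ℝ)) / (N : ℝ) ^ 3) atTop
      (nhds (1 / 12)) ∧
    (∀ L : ℝ, Tendsto (fun n : ℕ => (S (2 ^ n) n : ℝ) / (n : ℝ) ^ 2) atTop (nhds L) → L = 1 / 4) ∧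
    ¬ Tendsto (fun n : ℕ => (S (2 ^ n) n : ℝ) / (n : ℝ) ^ 2) atTop
      (nhds (1 - Real.pi ^ 2 / 12)) := by
  refine ⟨Pool.Agent.Q252.FU.sum_lim, Pool.Agent.Q252.FU.only_quarter, fun h => ?_⟩
  have h1 := Pool.Agent.Q252.FU.only_quarter _ h
  have h2 := Real.pi_gt_three
  nlinarith

end Pool.Agent.Results.MP_17736e_nt.QuarterNotLimit
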